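import Pool.Agent.MP_2b113a_an.H91.AG1

/-!
The arithmetic group attached to a finite index subgroup of the integral points.
-/

namespace Pool.Agent.MP_2b113a_an.H91

open Pool.Agent.MP_2b113a_an.H33 Filter Topology Polynomial
open scoped Matrix

variable {n : ℕ} {L : Type} [LieRing L] [LieAlgebra ℚ L] {b : Module.Basis (Fin n) ℚ L}
  {G : Type} [Group G] [TopologicalSpace G] {Ad : G →* Aut b} {𝒢 : LG L (Fin n → ℝ) G}

theorem j_inj (hj : ∀ x i, 𝒢.j x i = (b.repr x i : ℚ)) : Function.Injective 𝒢.j := by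
  intro x y h
  apply b.repr.injective
  ext i
  have := congrFun h i
  rw [hj, hj] at this
  exact_mod_cast this

theorem j_b (hj : ∀ x i, 𝒢.j x i = (b.repr x i : ℚ)) (k : Fin n) :
    𝒢.j (b k) = Pi.single k 1 := by
  ext i
  rw [hj, b.repr_self, Finsupp.single_apply, Pi.single_apply]
  by_cases h : k = i
  · simp [h]
  · simp [h, Ne.symm h]

theorem entry (hj : ∀ x i, 𝒢.j x i = (b.repr x i : ℚ))
    (hAd : ∀ g x, 𝒢.Ad g x = (Ad g).1.1 *ᵥ x) (g : G) (i k : Fin n) :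
    (Ad g).1.1 i k = 𝒢.Ad g (𝒢.j (b k)) i := by
  rw [hAd, j_b hj, Matrix.mulVec_single_one]
  rfl

theorem j_lie (x y : L) : 𝒢.j ⁅x, y⁆ = 𝒢.br (𝒢.j x) (𝒢.j y) := by
  rw [𝒢.br_j, 𝒢.ext_j]
  rfl

theorem E_pow (hF : 𝒢.Facts) (v : Fin n → ℝ) (k : ℕ) : 𝒢.E ((k : ℝ) • v) = 𝒢.E v ^ k := by
  induction k with
  | zero => simpa using hF.E_zero
  | succ k ih =>
    rw [Nat.cast_succ, hF.E_smul, ih, one_smul, pow_succ]

theorem E_neg (hF : 𝒢.Facts) (v : Fin n → ℝ) (t : ℝ) : 𝒢.E ((-t) • v) = (𝒢.E (t • v))⁻¹ := by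
  rw [eq_inv_iff_mul_eq_one, ← hF.E_smul, neg_add_cancel, zero_smul, hF.E_zero]

theorem discr [IsTopologicalGroup G] (hj : ∀ x i, 𝒢.j x i = (b.repr x i : ℚ))
    (hAd : ∀ g x, 𝒢.Ad g x = (Ad g).1.1 *ᵥ x) : DiscreteTopology ((AutZ b).comap Ad) := by
  refine discreteTopology_of_isOpen_singleton_one ?_
  simp only [isOpen_iff_mem_nhds, Set.mem_singleton_iff, forall_eq]
  have h1 : ∀ᶠ z in 𝓝 (1 : G), ∀ i k, |𝒢.Ad z (𝒢.j (b k)) i - 𝒢.j (b k) i| < 1 := by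
    simp only [eventually_all]
    intro i k
    have hc : Continuous fun z : G => |𝒢.Ad z (𝒢.j (b k)) i - 𝒢.j (b k) i| := by
      have := 𝒢.cont_Ad
      fun_prop
    exact hc.continuousAt.eventually_lt continuousAt_const (by simp)
  have h2 := (continuous_subtype_val.tendsto (1 : (AutZ b).comap Ad)).eventually
    (h1.and 𝒢.ker_disc)
  refine h2.mono fun z hz => ?_
  have h3 : (Ad z.1).1.1 = 1 := by
    ext i k
    obtain ⟨m, hm⟩ := (Subgroup.mem_comap.1 z.2).1 i k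
    have h4 := hz.1 i k
    rw [← entry hj hAd, hm, j_b hj] at h4
    rw [hm, Matrix.one_apply]
    rw [Pi.single_apply] at h4
    split_ifs at h4 ⊢
    · have : |m - 1| < 1 := by exact_mod_cast h4
      have : m = 1 := by have := abs_lt.1 this; omega
      simp [this]
    · have : |m - 0| < 1 := by exact_mod_cast h4
      have : m = 0 := by have := abs_lt.1 this; omega
      simp [this]
  refine Subtype.ext (hz.2 ?_)
  ext1 x
  rw [hAd, h3]
  simp

theorem exists_act (hj : ∀ x i, 𝒢.j x i = (b.repr x i : ℚ))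
    (hAd : ∀ g x, 𝒢.Ad g x = (Ad g).1.1 *ᵥ x) {g : G} (hg : g ∈ (AutZ b).comap Ad) :
    ∃ T : Module.End ℚ L, (∀ x, 𝒢.j (T x) = 𝒢.Ad g (𝒢.j x)) ∧ ∀ k, T (b k) ∈ lat b := by
  choose z hz using (Subgroup.mem_comap.1 hg).1
  refine ⟨b.constr ℚ fun k => ∑ i, (z i k : ℚ) • b i, fun x => ?_, fun k => ?_⟩
  · have h1 : ∀ k, 𝒢.j (∑ i, (z i k : ℚ) • b i) = 𝒢.Ad g (𝒢.j (b k)) := by
      intro k
      ext i
      rw [← entry hj hAd, hz, hj, b.repr_sum_self]
      simp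
    conv_rhs => rw [← b.sum_repr x]
    conv_lhs => rw [← b.sum_repr x]
    simp only [map_sum, map_smul, 𝒢.j_smul, Module.Basis.constr_basis, h1]
  · rw [Module.Basis.constr_basis]
    exact Submodule.sum_mem _ fun i _ => int_smul_mem b _ (b_mem b i)

theorem E_mem (hF : 𝒢.Facts) (hj : ∀ x i, 𝒢.j x i = (b.repr x i : ℚ))
    (hAd : ∀ g x, 𝒢.Ad g x = (Ad g).1.1 *ᵥ x) {d : ℕ}
    (hd : ∀ x ∈ lat b, ∀ y ∈ lat b, (d : ℚ) • ⁅x, y⁆ ∈ lat b) {x x' : L} (hx' : x' ∈ lat b)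
    (hx : x = ((d * n.factorial : ℕ) : ℚ) • x') (hn : Nil x) :
    𝒢.E (𝒢.j x) ∈ (AutZ b).comap Ad := by
  have key : ∀ x x' : L, x' ∈ lat b → x = ((d * n.factorial : ℕ) : ℚ) • x' → Nil x →
      ∀ i k, ∃ z : ℤ, (Ad (𝒢.E (𝒢.j x))).1.1 i k = z := by
    intro x x' hx' hx hn i k
    obtain ⟨z, hz⟩ := (mem_lat b).1 (ex_lat b hd hx' hx hn (b_mem b k)) i
    refine ⟨z, ?_⟩
    rw [entry hj hAd, hF.Ad_ex x hn, 𝒢.ext_j, hj, hz]
    simp
  refine Subgroup.mem_comap.2 ⟨key x x' hx' hx hn, ?_⟩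
  have h1 : 𝒢.E (𝒢.j (-x)) = (𝒢.E (𝒢.j x))⁻¹ := by
    have := E_neg hF (𝒢.j x) 1
    rwa [one_smul, neg_smul, one_smul, ← map_neg] at this
  have h2 := key (-x) (-x') (neg_mem hx') (by rw [hx, smul_neg])
    (by simpa using nil_smul (-1) hn)
  rw [h1, map_inv] at h2
  exact h2

theorem dens_aux (hF : 𝒢.Facts) (Z : Set L) (hZ : ∀ z ∈ Z, Nil z)
    (hgen : LieSubalgebra.lieSpan ℚ L Z = ⊤) (U : Subgroup G) (hU : ∀ z ∈ Z, 𝒢.E (𝒢.j z) ∈ U)
    (w : Fin n → Fin n → ℝ) (p : MvPolynomial (Fin n × Fin n) ℚ)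
    (hp : ∀ u ∈ U, MvPolynomial.aeval (fun ij : Fin n × Fin n => 𝒢.Ad u (w ij.2) ij.1) p = 0)
    (g : G) : MvPolynomial.aeval (fun ij : Fin n × Fin n => 𝒢.Ad g (w ij.2) ij.1) p = 0 := by
  set T : Set G := {g | ∀ u ∈ U,
    MvPolynomial.aeval (fun ij : Fin n × Fin n => 𝒢.Ad (u * g) (w ij.2) ij.1) p = 0} with hT
  have step : ∀ z ∈ Z, ∀ t : ℝ, ∀ g ∈ T, 𝒢.E (t • 𝒢.j z) * g ∈ T := by
    intro z hz t g hg u hu
    obtain ⟨N, hN⟩ := hZ z hz
    set q : Fin n × Fin n → ℝ[X] := fun ij => ∑ i ∈ Finset.range N,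
      C (((i.factorial : ℝ))⁻¹ * 𝒢.Ad u (𝒢.ext (ad z ^ i) (𝒢.Ad g (w ij.2))) ij.1) * X ^ i
      with hq
    have h1 : ∀ s : ℝ, (MvPolynomial.aeval q p).eval s = MvPolynomial.aeval
        (fun ij : Fin n × Fin n => 𝒢.Ad (u * (𝒢.E (s • 𝒢.j z) * g)) (w ij.2) ij.1) p := by
      intro s
      rw [← Polynomial.coe_aeval_eq_eval]
      have h2 := MvPolynomial.comp_aeval_apply (f := q)
        ((Polynomial.aeval s : ℝ[X] →ₐ[ℝ] ℝ).restrictScalars ℚ) p
      refine Eq.trans h2 ?_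
      congr 2
      funext ij
      rw [map_mul, map_mul, hF.Ad_nil z (hZ z hz) s N hN]
      simp only [hq, AlgHom.restrictScalars_apply, map_sum, map_mul, aeval_C, map_pow, aeval_X,
        mul_apply_eq_comp, _root_.sum_apply,
        _root_.smul_apply, map_smul, Finset.sum_apply, Pi.smul_apply, smul_eq_mul,
        Algebra.algebraMap_self, RingHom.id_apply]
      refine Finset.sum_congr rfl fun i _ => ?_
      ring
    have h3 : MvPolynomial.aeval q p = 0 := by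
      apply Polynomial.eq_zero_of_infinite_isRoot
      refine Set.infinite_of_injective_forall_mem (f := fun k : ℕ => (k : ℝ))
        Nat.cast_injective fun k => ?_
      change (MvPolynomial.aeval q p).eval (k : ℝ) = 0
      rw [h1, E_pow hF, ← mul_assoc]
      exact hg _ (U.mul_mem hu (U.pow_mem (hU z hz) k))
    rw [← h1, h3, eval_zero]
  let S : Subgroup G :=
    { carrier := {h | ∀ g ∈ T, h * g ∈ T ∧ h⁻¹ * g ∈ T}
      one_mem' := fun g hg => by simpa using hg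
      mul_mem' := fun {a c} ha hc g hg => by
        rw [mul_inv_rev, mul_assoc, mul_assoc]
        exact ⟨(ha _ (hc g hg).1).1, (hc _ (ha g hg).2).2⟩
      inv_mem' := fun {a} ha g hg => by
        rw [inv_inv]
        exact (ha g hg).symm }
  have hS : S = ⊤ := hF.gen S Z (fun z hz t g hg =>
    ⟨step z hz t g hg, by rw [← E_neg hF]; exact step z hz _ g hg⟩) hgen
  have h1 : (1 : G) ∈ T := fun u hu => by simpa using hp u hu
  have h2 : g ∈ S := by rw [hS]; trivial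
  have := (h2 1 h1).1 1 U.one_mem
  simpa using this

open Classical in
/-- The unipotent elements of the subgroup. -/
noncomputable def EE (𝒢 : LG L (Fin n → ℝ) G) (Γ₀ : Subgroup G) (x : L) : Γ₀ :=
  if h : 𝒢.E (𝒢.j x) ∈ Γ₀ then ⟨_, h⟩ else 1

theorem EE_coe {Γ₀ : Subgroup G} {x : L} (h : 𝒢.E (𝒢.j x) ∈ Γ₀) :
    (EE 𝒢 Γ₀ x : G) = 𝒢.E (𝒢.j x) := by
  unfold EE
  rw [dif_pos h]

theorem ag : AGStmt := by
  intro n L _ _ b G _ _ _ Ad 𝒢 hF hj hAd
  refine ⟨discr hj hAd, fun Γ₀ hle hidx => ?_⟩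
  have : Module.Finite ℚ L := Module.Finite.of_basis b
  obtain ⟨d, hd0, hd⟩ := exists_den b
  set N : ℕ := (Γ₀.relIndex ((AutZ b).comap Ad)).factorial with hN
  have hM : 0 < N * (d * n.factorial) := by positivity
  set M : ℕ := N * (d * n.factorial) with hMdef
  have hinj := j_inj hj
  choose T hT hTb using fun g : Γ₀ => exists_act hj hAd (hle g.2)
  let act : Γ₀ →* Module.End ℚ L :=
    { toFun := T
      map_one' := LinearMap.ext fun x => hinj (by rw [hT]; simp)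
      map_mul' := fun g h => LinearMap.ext fun x => hinj (by
        rw [hT, Module.End.mul_apply, hT, hT, Subgroup.coe_mul, map_mul]; rfl) }
  have hsc : ∀ x' : L, (M : ℚ) • x' = ((d * n.factorial : ℕ) : ℚ) • ((N : ℚ) • x') := by
    intro x'
    rw [smul_smul, hMdef, Nat.cast_mul N, mul_comm]
  have hE : ∀ x ∈ lat (scal b M hM), Nil x → 𝒢.E (𝒢.j x) ∈ Γ₀ := by
    intro x hx hn
    obtain ⟨x', hx', rfl⟩ := (mem_scal b M hM).1 hx
    have hN0 : (N : ℚ) ≠ 0 := by positivity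
    have e1 : (M : ℚ) • x' = (N : ℚ) • (((d * n.factorial : ℕ) : ℚ) • x') := by
      rw [smul_smul, hMdef, Nat.cast_mul N]
    have hn' : Nil (((d * n.factorial : ℕ) : ℚ) • x') := by
      have := nil_smul (N : ℚ)⁻¹ hn
      rwa [e1, smul_smul, inv_mul_cancel₀ hN0, one_smul] at this
    have h1 := E_mem hF hj hAd hd hx' rfl hn'
    rw [e1, 𝒢.j_smul, Rat.cast_natCast, E_pow hF]
    exact (Subgroup.pow_mem_of_relIndex_ne_zero_of_dvd hidx h1
      fun m h0 hm => Nat.dvd_factorial h0 hm).1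
  have hrep : ∀ (g : Γ₀) (i k : Fin n),
      (((scal b M hM).repr (T g (scal b M hM k)) i : ℚ) : ℝ) = 𝒢.Ad g (𝒢.j (b k)) i := by
    intro g i k
    have h0 : (M : ℚ) ≠ 0 := by positivity
    rw [scal_repr, scal_apply, map_smul, map_smul, Finsupp.smul_apply, smul_eq_mul,
      inv_mul_cancel_left₀ h0, ← hT, hj]
  have hev : ∀ (g : Γ₀) (p : MvPolynomial (Fin n × Fin n) ℚ),
      MvPolynomial.eval (fun ij : Fin n × Fin n =>
        (scal b M hM).repr (T g (scal b M hM ij.2)) ij.1) p = 0 ↔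
      MvPolynomial.aeval (fun ij : Fin n × Fin n => 𝒢.Ad g (𝒢.j (b ij.2)) ij.1) p = 0 := by
    intro g p
    have h2 := MvPolynomial.comp_aeval_apply
      (f := fun ij : Fin n × Fin n => (scal b M hM).repr (T g (scal b M hM ij.2)) ij.1)
      (Algebra.ofId ℚ ℝ) p
    simp only [eq_ratCast, hrep] at h2
    rw [← h2, MvPolynomial.aeval_eq_eval]
    simp
  refine ⟨{ n := n
            b := scal b M hM
            act := act
            E := EE 𝒢 Γ₀
            lie_mem := ?_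
            div_mem := ?_
            act_mem := ?_
            act_lie := ?_
            act_E := ?_
            E_conj := ?_
            E_add := ?_
            E_unip := ?_
            dens := ?_ }, fun x hx hn => EE_coe (hE x hx hn)⟩
  · intro x hx y hy
    obtain ⟨x', hx', rfl⟩ := (mem_scal b M hM).1 hx
    obtain ⟨y', hy', rfl⟩ := (mem_scal b M hM).1 hy
    refine (mem_scal b M hM).2 ⟨((N * n.factorial : ℕ) : ℚ) • ((d : ℚ) • ⁅x', y'⁆),
      nat_smul_mem b _ (hd x' hx' y' hy'), ?_⟩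
    rw [smul_lie, lie_smul, smul_smul ((N * n.factorial : ℕ) : ℚ)]
    congr 2
    rw [hMdef]
    push_cast
    ring
  · intro x hx hn y hy k
    obtain ⟨x', hx', rfl⟩ := (mem_scal b M hM).1 hx
    obtain ⟨y', hy', rfl⟩ := (mem_scal b M hM).1 hy
    refine (mem_scal b M hM).2 ⟨_, div_lat b hd (nat_smul_mem b N hx') (hsc x') hn hy' k, ?_⟩
    rw [map_smul, smul_comm]
  · intro g x hx
    obtain ⟨x', hx', rfl⟩ := (mem_scal b M hM).1 hx
    exact (mem_scal b M hM).2 ⟨_, map_lat b (T g) (hTb g) hx', map_smul _ _ _⟩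
  · intro g x y
    apply hinj
    change 𝒢.j (T g _) = 𝒢.j ⁅T g x, T g y⁆
    rw [hT, j_lie, j_lie, hT, hT, 𝒢.Ad_br]
  · intro x hx hn
    refine LinearMap.ext fun y => hinj ?_
    change 𝒢.j (T _ _) = _
    rw [hT, EE_coe (hE x hx hn), hF.Ad_ex x hn, 𝒢.ext_j]
  · intro g x hx hn
    have h1 : (g : G) * 𝒢.E (𝒢.j x) * (g : G)⁻¹ = 𝒢.E (𝒢.j (T g x)) := by
      rw [𝒢.E_conj, hT]
    have h2 : 𝒢.E (𝒢.j (T g x)) ∈ Γ₀ :=
      h1 ▸ Γ₀.mul_mem (Γ₀.mul_mem g.2 (hE x hx hn)) (Γ₀.inv_mem g.2)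
    refine Subtype.ext ?_
    change (g : G) * (EE 𝒢 Γ₀ x : G) * (g : G)⁻¹ = (EE 𝒢 Γ₀ (T g x) : G)
    rw [EE_coe h2, EE_coe (hE x hx hn), h1]
  · intro x hx y hy hnx hny hxy
    have h1 : 𝒢.E (𝒢.j (x + y)) = 𝒢.E (𝒢.j x) * 𝒢.E (𝒢.j y) := by
      rw [map_add, 𝒢.E_add _ _ (by rw [← j_lie, hxy, map_zero])]
    have h2 : 𝒢.E (𝒢.j (x + y)) ∈ Γ₀ := h1 ▸ Γ₀.mul_mem (hE x hx hnx) (hE y hy hny)
    refine Subtype.ext ?_
    rw [Subgroup.coe_mul, EE_coe h2, EE_coe (hE x hx hnx), EE_coe (hE y hy hny), h1]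
  · intro σ hσ l hl hprod
    have h1 := hF.unip σ hσ l (fun x hx => (hl x hx).2) hprod
    refine Subtype.ext ?_
    rw [Subgroup.val_list_prod, List.map_map, Subgroup.coe_one, ← h1]
    congr 1
    exact List.map_congr_left fun x hx => EE_coe (hE x (hl x hx).1 (nil_of_pos hσ (hl x hx).2))
  · intro Z hZ hgen p hp g
    refine (hev g p).2 (dens_aux hF Z (fun z hz => (hZ z hz).2) hgen
      ((Subgroup.closure (EE 𝒢 Γ₀ '' Z)).map Γ₀.subtype) (fun z hz => ?_)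
      (fun k => 𝒢.j (b k)) p ?_ g)
    · exact ⟨EE 𝒢 Γ₀ z, Subgroup.subset_closure ⟨z, hz, rfl⟩, EE_coe (hE z (hZ z hz).1 (hZ z hz).2)⟩
    · rintro _ ⟨u, hu, rfl⟩
      exact (hev u p).1 (hp u hu)

end Pool.Agent.MP_2b113a_an.H91
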