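import Pool.Agent.MP_2b113a_an.H33.Defs

/-!
Lattices in a rational Lie algebra.
-/

namespace Pool.Agent.MP_2b113a_an.H91

open Pool.Agent.MP_2b113a_an.H33

variable {L : Type} [LieRing L] [LieAlgebra ℚ L]

theorem ad_smul (c : ℚ) (x : L) : ad (c • x) = c • ad x := map_smul (LieAlgebra.ad ℚ L) c x

theorem lie_eig {σ x y : L} {c d : ℚ} (hx : x ∈ eig σ c) (hy : y ∈ eig σ d) :
    ⁅x, y⁆ ∈ eig σ (c + d) := by
  unfold eig at *
  rw [Module.End.mem_eigenspace_iff] at *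
  simp only [LieAlgebra.ad_apply] at *
  rw [leibniz_lie, hx, hy, smul_lie, lie_smul, add_smul]

/-- The sum of the eigenspaces with eigenvalue at least `c`. -/
def Wge (σ : L) (c : ℚ) : Submodule ℚ L := ⨆ d : ℚ, ⨆ _ : c ≤ d, eig σ d

theorem mem_Wge {σ y : L} {c d : ℚ} (h : c ≤ d) (hy : y ∈ eig σ d) : y ∈ Wge σ c :=
  Submodule.mem_iSup_of_mem d (Submodule.mem_iSup_of_mem h hy)

theorem lie_Wge {σ x y : L} {c d : ℚ} (hx : x ∈ Wge σ c) (hy : y ∈ Wge σ d) :
    ⁅x, y⁆ ∈ Wge σ (c + d) := by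
  have key : ∀ c', c ≤ c' → ∀ x ∈ eig σ c', ⁅x, y⁆ ∈ Wge σ (c + d) := by
    intro c' hc x hx
    have : Wge σ d ≤ (Wge σ (c + d)).comap (ad x) :=
      iSup₂_le fun d' hd y hy => mem_Wge (add_le_add hc hd) (lie_eig hx hy)
    exact this hy
  have : Wge σ c ≤ (Wge σ (c + d)).comap (ad y) := by
    refine iSup₂_le fun c' hc x hx => ?_
    have h := neg_mem (key c' hc x hx)
    rwa [lie_skew] at h
  have h := neg_mem (show ⁅y, x⁆ ∈ Wge σ (c + d) from this hx)
  rwa [lie_skew] at h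

theorem nil_of_pos [Module.Finite ℚ L] {σ x : L} (hσ : Diag σ) (hx : x ∈ pos σ) : Nil x := by
  have hfin := Module.End.finite_hasEigenvalue (ad σ)
  have hbot : ∀ c, c ∉ {μ | (ad σ).HasEigenvalue μ} → eig σ c = ⊥ := fun c hc => by
    simpa [Module.End.hasEigenvalue_iff, eig] using hc
  obtain ⟨a, ha⟩ := hfin.bddBelow
  obtain ⟨b, hb⟩ := hfin.bddAbove
  obtain ⟨δ, hδ, hδ'⟩ : ∃ δ : ℚ, 0 < δ ∧ ∀ c ∈ {μ | (ad σ).HasEigenvalue μ}, 0 < c → δ ≤ c := by
    have h2 : ({μ | (ad σ).HasEigenvalue μ} ∩ {c | 0 < c}).Finite := hfin.inter_of_left _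
    rcases Set.eq_empty_or_nonempty ({μ | (ad σ).HasEigenvalue μ} ∩ {c | 0 < c}) with h | h
    · exact ⟨1, one_pos, fun c hc hc' => absurd (Set.mem_inter hc hc') (by rw [h]; simp)⟩
    · obtain ⟨δ, hδ, hm⟩ := Set.exists_min_image _ id h2 h
      exact ⟨δ, hδ.2, fun c hc hc' => hm c ⟨hc, hc'⟩⟩
  have h1 : x ∈ Wge σ δ := by
    have : pos σ ≤ Wge σ δ := by
      refine iSup₂_le fun c hc y hy => ?_
      by_cases h : c ∈ {μ | (ad σ).HasEigenvalue μ}
      · exact mem_Wge (hδ' c h hc) hy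
      · rw [hbot c h, Submodule.mem_bot] at hy
        rw [hy]; exact zero_mem _
    exact this hx
  have h2 : ∀ y, y ∈ Wge σ a := by
    intro y
    have : (⊤ : Submodule ℚ L) ≤ Wge σ a := by
      rw [← show ⨆ c : ℚ, eig σ c = ⊤ from hσ]
      refine iSup_le fun c y hy => ?_
      by_cases h : c ∈ {μ | (ad σ).HasEigenvalue μ}
      · exact mem_Wge (ha h) hy
      · rw [hbot c h, Submodule.mem_bot] at hy
        rw [hy]; exact zero_mem _
    exact this trivial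
  have h3 : ∀ (k : ℕ) y, (ad x ^ k) y ∈ Wge σ (k * δ + a) := by
    intro k y
    induction k with
    | zero => simpa using h2 y
    | succ k ih =>
      rw [pow_succ', Module.End.mul_apply, LieAlgebra.ad_apply]
      have := lie_Wge h1 ih
      rwa [show δ + (k * δ + a) = ((k + 1 : ℕ) : ℚ) * δ + a by push_cast; ring] at this
  obtain ⟨k, hk⟩ := exists_nat_gt ((b - a) / δ)
  rw [div_lt_iff₀ hδ] at hk
  refine ⟨k, LinearMap.ext fun y => ?_⟩
  have : Wge σ (k * δ + a) ≤ ⊥ := by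
    refine iSup₂_le fun c hc => (hbot c fun h => ?_).le
    have := hb h
    linarith
  simpa using this (h3 k y)

variable {n : ℕ} (b : Module.Basis (Fin n) ℚ L)

theorem mem_lat {x : L} : x ∈ lat b ↔ ∀ i, ∃ z : ℤ, b.repr x i = z := by
  unfold lat
  rw [Module.Basis.mem_span_iff_repr_mem]
  exact forall_congr' fun i => ⟨fun ⟨z, hz⟩ => ⟨z, by simpa using hz.symm⟩,
    fun ⟨z, hz⟩ => ⟨z, by simpa using hz.symm⟩⟩

theorem b_mem (i : Fin n) : b i ∈ lat b := Submodule.subset_span ⟨i, rfl⟩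

theorem int_smul_mem (z : ℤ) {x : L} (hx : x ∈ lat b) : (z : ℚ) • x ∈ lat b := by
  rw [Int.cast_smul_eq_zsmul]
  exact Submodule.smul_mem _ _ hx

theorem nat_smul_mem (z : ℕ) {x : L} (hx : x ∈ lat b) : (z : ℚ) • x ∈ lat b := by
  simpa using int_smul_mem b z hx

theorem map_lat (T : L →ₗ[ℚ] L) (h : ∀ i, T (b i) ∈ lat b) {x : L} (hx : x ∈ lat b) :
    T x ∈ lat b := by
  induction hx using Submodule.span_induction with
  | mem x hx => obtain ⟨i, rfl⟩ := hx; exact h i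
  | zero => simp
  | add x y _ _ hx hy => rw [map_add]; exact add_mem hx hy
  | smul a x _ hx => rw [map_zsmul]; exact Submodule.smul_mem _ _ hx

theorem exists_den : ∃ d : ℕ, 0 < d ∧ ∀ x ∈ lat b, ∀ y ∈ lat b, (d : ℚ) • ⁅x, y⁆ ∈ lat b := by
  refine ⟨∏ t : Fin n × Fin n × Fin n, (b.repr ⁅b t.1, b t.2.1⁆ t.2.2).den,
    Finset.prod_pos fun t _ => Rat.den_pos _, ?_⟩
  set d : ℕ := ∏ t : Fin n × Fin n × Fin n, (b.repr ⁅b t.1, b t.2.1⁆ t.2.2).den with hd
  have h1 : ∀ i j, (d : ℚ) • ⁅b i, b j⁆ ∈ lat b := by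
    intro i j
    rw [mem_lat]
    intro k
    obtain ⟨e, he⟩ : (b.repr ⁅b i, b j⁆ k).den ∣ d :=
      Finset.dvd_prod_of_mem (fun t : Fin n × Fin n × Fin n =>
        (b.repr ⁅b t.1, b t.2.1⁆ t.2.2).den) (Finset.mem_univ (i, j, k))
    refine ⟨e * (b.repr ⁅b i, b j⁆ k).num, ?_⟩
    rw [map_smul, Finsupp.smul_apply, smul_eq_mul, he]
    push_cast
    rw [← Rat.den_mul_eq_num]
    ring
  intro x hx y hy
  have h2 : ∀ j, (d : ℚ) • ⁅x, b j⁆ ∈ lat b := fun j => by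
    have := neg_mem (map_lat b ((d : ℚ) • ad (b j)) (fun i => by simpa using h1 j i) hx)
    rwa [LinearMap.smul_apply, LieAlgebra.ad_apply, ← smul_neg, lie_skew] at this
  have := map_lat b ((d : ℚ) • ad x) (fun j => by simpa using h2 j) hy
  simpa using this

include b in
theorem nil_pow {x : L} (hx : Nil x) : ad x ^ n = 0 := by
  have : Module.Finite ℚ L := Module.Finite.of_basis b
  have h := (ad x).aeval_self_charpoly
  rw [IsNilpotent.charpoly_eq_X_pow_finrank hx, Module.finrank_eq_card_basis b] at h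
  simpa using h

theorem div_lat {d : ℕ} (hd : ∀ x ∈ lat b, ∀ y ∈ lat b, (d : ℚ) • ⁅x, y⁆ ∈ lat b) {x x' : L}
    (hx' : x' ∈ lat b) (hx : x = ((d * n.factorial : ℕ) : ℚ) • x') (hn : Nil x) {y : L}
    (hy : y ∈ lat b) (j : ℕ) : (j.factorial : ℚ)⁻¹ • (ad x ^ j) y ∈ lat b := by
  rcases le_or_gt j n with hj | hj
  · have h1 : ad x = (n.factorial : ℚ) • ((d : ℚ) • ad x') := by
      rw [hx, ad_smul, smul_smul]
      push_cast
      rw [mul_comm]
    have h2 : ∀ k : ℕ, (((d : ℚ) • ad x') ^ k) y ∈ lat b := by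
      intro k
      induction k with
      | zero => simpa using hy
      | succ k ih =>
        rw [pow_succ', Module.End.mul_apply]
        exact hd x' hx' _ ih
    obtain ⟨e, he⟩ : j.factorial ∣ n.factorial ^ j := by
      rcases Nat.eq_zero_or_pos j with rfl | h0
      · simp
      · exact (Nat.factorial_dvd_factorial hj).trans (dvd_pow_self _ h0.ne')
    have h3 : (j.factorial : ℚ)⁻¹ * (n.factorial : ℚ) ^ j = e := by
      have : (n.factorial : ℚ) ^ j = j.factorial * e := by exact_mod_cast he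
      rw [this]
      field_simp
    rw [h1, smul_pow, LinearMap.smul_apply, smul_smul, h3]
    exact nat_smul_mem b e (h2 j)
  · rw [pow_eq_zero_of_le hj.le (nil_pow b hn)]
    simp

theorem ex_lat {d : ℕ} (hd : ∀ x ∈ lat b, ∀ y ∈ lat b, (d : ℚ) • ⁅x, y⁆ ∈ lat b) {x x' : L}
    (hx' : x' ∈ lat b) (hx : x = ((d * n.factorial : ℕ) : ℚ) • x') (hn : Nil x) {y : L}
    (hy : y ∈ lat b) : ex x y ∈ lat b := by
  unfold ex IsNilpotent.exp
  rw [LinearMap.sum_apply]
  exact Submodule.sum_mem _ fun j _ => div_lat b hd hx' hx hn hy j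

/-- A rescaled basis. -/
noncomputable def scal (M : ℕ) (hM : 0 < M) : Module.Basis (Fin n) ℚ L :=
  b.unitsSMul fun _ => Units.mk0 (M : ℚ) (by positivity)

theorem scal_apply (M : ℕ) (hM : 0 < M) (i : Fin n) : scal b M hM i = (M : ℚ) • b i := by
  simp [scal, Module.Basis.unitsSMul_apply]

theorem scal_repr (M : ℕ) (hM : 0 < M) (x : L) (i : Fin n) :
    (scal b M hM).repr x i = (M : ℚ)⁻¹ * b.repr x i := by
  simp [scal, Module.Basis.repr_unitsSMul, Units.smul_def]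

theorem mem_scal (M : ℕ) (hM : 0 < M) {x : L} :
    x ∈ lat (scal b M hM) ↔ ∃ y ∈ lat b, x = (M : ℚ) • y := by
  have h0 : (M : ℚ) ≠ 0 := by positivity
  constructor
  · intro h
    refine ⟨(M : ℚ)⁻¹ • x, ?_, by rw [smul_smul, mul_inv_cancel₀ h0, one_smul]⟩
    rw [mem_lat] at h ⊢
    intro i
    obtain ⟨z, hz⟩ := h i
    exact ⟨z, by rw [← hz, scal_repr]; simp⟩
  · rintro ⟨y, hy, rfl⟩
    rw [mem_lat] at hy ⊢
    intro i
    obtain ⟨z, hz⟩ := hy i
    refine ⟨z, ?_⟩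
    rw [scal_repr, map_smul, Finsupp.smul_apply, smul_eq_mul, hz]
    field_simp

theorem nil_smul {x : L} (c : ℚ) (hx : Nil x) : Nil (c • x) := by
  unfold Nil at *
  rw [ad_smul]
  exact hx.smul c

end Pool.Agent.MP_2b113a_an.H91
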